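import Pool.Agent.Lib.TorusDegree.Piola
import Mathlib.MeasureTheory.Integral.DivergenceTheorem
import Mathlib.Analysis.Calculus.FDeriv.Symmetric
import Mathlib.Analysis.Calculus.LineDeriv.Basic
import Mathlib.Analysis.Calculus.ContDiff.Operations
import Mathlib.Analysis.SpecialFunctions.Trigonometric.Deriv
import Mathlib.MeasureTheory.Measure.OpenPos

/-!
An analytic degree for smooth maps from the torus of dimension `n` to `R^(n+1)` minus the origin,
`n + 1` even, and its invariance under smooth homotopies.  Coordinate `0` is the homotopy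
parameter and the coordinates `i.succ` are angles.
-/

namespace Pool.Agent.Lib.TorusDegree

open Matrix Finset MeasureTheory Set
open scoped ContDiff Real

variable {n : ℕ}

/-- Smooth functions that are periodic in the angle coordinates. -/
def Per (n : ℕ) : Subalgebra ℝ ((Fin (n + 1) → ℝ) → ℝ) where
  carrier := {f | ContDiff ℝ ∞ f ∧ ∀ (i : Fin n) y, f (y + Pi.single i.succ (2 * π)) = f y}
  mul_mem' := fun {f g} hf hg => ⟨hf.1.mul hg.1, fun i y => by simp [hf.2 i y, hg.2 i y]⟩
  add_mem' := fun {f g} hf hg => ⟨hf.1.add hg.1, fun i y => by simp [hf.2 i y, hg.2 i y]⟩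
  algebraMap_mem' := fun r => ⟨contDiff_const, fun _ _ => rfl⟩

theorem Per.diff (f : Per n) : Differentiable ℝ f.1 := f.2.1.differentiable (by simp)

theorem Per.cont (f : Per n) : Continuous f.1 := f.2.1.continuous

/-- Coordinate derivative. -/
noncomputable def D (j : Fin (n + 1)) : Per n →+ Per n where
  toFun f := ⟨fun y => fderiv ℝ f.1 y (Pi.single j 1),
    (f.2.1.fderiv_right (m := ∞) (by simp)).clm_apply contDiff_const, fun i y => by
      have h : (fun x => f.1 (x + Pi.single i.succ (2 * π))) = f.1 := funext fun x => f.2.2 i x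
      change fderiv ℝ f.1 (y + Pi.single i.succ (2 * π)) _ = _
      rw [← fderiv_comp_add_right, h]⟩
  map_zero' := by
    ext y
    simp
  map_add' f g := by
    ext y
    change fderiv ℝ (f.1 + g.1) y _ = fderiv ℝ f.1 y _ + fderiv ℝ g.1 y _
    rw [fderiv_add (Per.diff f y) (Per.diff g y)]
    rfl

theorem D_apply (j : Fin (n + 1)) (f : Per n) (y : Fin (n + 1) → ℝ) :
    (D j f).1 y = fderiv ℝ f.1 y (Pi.single j 1) := rfl

theorem D_mul (j : Fin (n + 1)) (f g : Per n) : D j (f * g) = D j f * g + f * D j g := by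
  ext y
  change fderiv ℝ (f.1 * g.1) y _ = fderiv ℝ f.1 y _ * g.1 y + f.1 y * fderiv ℝ g.1 y _
  rw [fderiv_mul (Per.diff f y) (Per.diff g y)]
  simp
  ring

theorem D_smul (j : Fin (n + 1)) (c : ℝ) (f : Per n) : D j (c • f) = c • D j f := by
  ext y
  change fderiv ℝ (c • f.1) y _ = c • fderiv ℝ f.1 y _
  rw [fderiv_const_smul (Per.diff f y)]
  rfl

theorem D_D (i j : Fin (n + 1)) (f : Per n) (y : Fin (n + 1) → ℝ) :
    (D i (D j f)).1 y = fderiv ℝ (fderiv ℝ f.1) y (Pi.single i 1) (Pi.single j 1) := by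
  have h : Differentiable ℝ (fderiv ℝ f.1) :=
    (f.2.1.fderiv_right (m := ∞) (by simp)).differentiable (by simp)
  change fderiv ℝ (fun y => fderiv ℝ f.1 y (Pi.single j 1)) y (Pi.single i 1) = _
  rw [fderiv_clm_apply (h y) (differentiableAt_const _)]
  simp

theorem D_comm (i j : Fin (n + 1)) (f : Per n) : D i (D j f) = D j (D i f) := by
  ext y
  rw [D_D, D_D]
  exact (f.2.1.contDiffAt.isSymmSndFDerivAt (by
    rw [minSmoothness_of_isRCLikeNormedField]
    exact WithTop.coe_le_coe.2 (le_top : (2 : ℕ∞) ≤ ⊤))).eq _ _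

/-- Evaluation at a point. -/
def ev (y : Fin (n + 1) → ℝ) : Per n →+* ℝ where
  toFun f := f.1 y
  map_one' := rfl
  map_mul' _ _ := rfl
  map_zero' := rfl
  map_add' _ _ := rfl

theorem ev_apply (y : Fin (n + 1) → ℝ) (f : Per n) : ev y f = f.1 y := rfl

/-- The minors. -/
noncomputable def G (f : Fin (n + 1) → Per n) (j : Fin (n + 1)) : Per n :=
  ((jac D f).updateCol j f).det

/-- The squared norm. -/
noncomputable def N (f : Fin (n + 1) → Per n) : Per n := ∑ i, f i * f i

theorem N_ne_zero (f : Fin (n + 1) → Per n) (y : Fin (n + 1) → ℝ) (h : ∃ i, (f i).1 y ≠ 0) :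
    0 < (N f).1 y := by
  obtain ⟨i, hi⟩ := h
  change 0 < ev y (N f)
  rw [N, map_sum]
  refine sum_pos' (fun k _ => ?_) ⟨i, Finset.mem_univ _, ?_⟩
  · rw [map_mul]
    exact mul_self_nonneg _
  · rw [map_mul]
    exact mul_self_pos.2 hi

theorem key (f : Fin (n + 1) → Per n) :
    ∑ j, G f j * D j (N f) = 2 * ((jac D f).det * N f) := by
  have h1 : ∀ j, D j (N f) = ∑ i, 2 * (f i * jac D f i j) := by
    intro j
    rw [N, map_sum]
    refine sum_congr rfl fun i _ => ?_
    rw [D_mul]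
    simp only [jac, of_apply]
    ring
  simp only [h1, mul_sum]
  rw [sum_comm, N, mul_sum, mul_sum]
  refine sum_congr rfl fun i _ => ?_
  have := cramer_id (jac D f) f i
  calc ∑ j, G f j * (2 * (f i * jac D f i j))
      = 2 * f i * ∑ j, jac D f i j * ((jac D f).updateCol j f).det := by
        rw [mul_sum]
        refine sum_congr rfl fun j _ => ?_
        simp only [G]
        ring
    _ = _ := by rw [this]; ring

/-- The components of the pulled back solid angle form. -/
noncomputable def W (m : ℕ) (f : Fin (n + 1) → Per n) (j : Fin (n + 1)) (y : Fin (n + 1) → ℝ) :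
    ℝ := (G f j).1 y / (N f).1 y ^ m

theorem W_diff (m : ℕ) (f : Fin (n + 1) → Per n) (j : Fin (n + 1)) (y : Fin (n + 1) → ℝ)
    (hy : (N f).1 y ≠ 0) : DifferentiableAt ℝ (W m f j) y := by
  have h1 := Per.diff (G f j) y
  have h2 := Per.diff (N f) y
  have : W m f j = fun y => (G f j).1 y * ((N f).1 y ^ m)⁻¹ := by
    ext y
    simp [W, div_eq_mul_inv]
  rw [this]
  exact h1.mul ((h2.pow m).inv (pow_ne_zero _ hy))

theorem W_div (m : ℕ) (hm : n + 1 = 2 * (m + 1)) (f : Fin (n + 1) → Per n)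
    (y : Fin (n + 1) → ℝ) (hy : (N f).1 y ≠ 0) :
    ∑ j, fderiv ℝ (W (m + 1) f j) y (Pi.single j 1) = 0 := by
  have h0 : ∀ j, fderiv ℝ (W (m + 1) f j) y (Pi.single j 1) =
      (ev y (D j (G f j)) * ev y (N f) - (m + 1) * ev y (G f j * D j (N f))) /
        (N f).1 y ^ (m + 2) := by
    intro j
    have h1 := (Per.diff (G f j) y).hasFDerivAt
    have h2 := (Per.diff (N f) y).hasFDerivAt
    have h3 := (hasDerivAt_inv (pow_ne_zero (m + 1) hy)).comp_hasFDerivAt y (h2.pow (m + 1))
    have h4 := h1.mul h3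
    have : W (m + 1) f j = (G f j).1 * ((fun y => y⁻¹) ∘ fun x => (N f).1 x ^ (m + 1)) := by
      ext y
      simp [W, div_eq_mul_inv]
    rw [this, h4.fderiv]
    simp only [map_mul, ev_apply, D_apply]
    simp
    field_simp
    ring
  simp only [h0]
  rw [← sum_div, sum_sub_distrib, ← sum_mul, ← mul_sum, ← map_sum, ← map_sum, key]
  have := piola D D_mul D_comm f
  simp only [G]
  have hm' : ((n + 1 : ℕ) : ℝ) = 2 * (m + 1) := by
    rw [hm]
    push_cast
    ring
  rw [this, Fintype.card_fin]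
  simp only [map_mul, map_natCast, map_ofNat, hm']
  ring_nf

/-- The degree integral at level `s`. -/
noncomputable def deg (m : ℕ) (f : Fin (n + 1) → Per n) (s : ℝ) : ℝ :=
  ∫ x in Icc (0 : Fin n → ℝ) (fun _ => 2 * π), W m f 0 (Fin.cons s x)

theorem homotopy (m : ℕ) (hm : n + 1 = 2 * (m + 1)) (f : Fin (n + 1) → Per n)
    (hf : ∀ y : Fin (n + 1) → ℝ, 0 ≤ y 0 → y 0 ≤ 1 → ∃ i, (f i).1 y ≠ 0) :
    deg (m + 1) f 1 = deg (m + 1) f 0 := by
  let b : Fin (n + 1) → ℝ := Fin.cons 1 fun _ => 2 * π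
  have hb : (0 : Fin (n + 1) → ℝ) ≤ b := by
    intro i
    refine Fin.cases ?_ (fun i => ?_) i
    · simp [b]
    · simp only [b, Fin.cons_succ, Pi.zero_apply]
      positivity
  have hN : ∀ y ∈ Icc (0 : Fin (n + 1) → ℝ) b, (N f).1 y ≠ 0 := fun y hy =>
    (N_ne_zero f y (hf y (hy.1 0) (by simpa [b] using hy.2 0))).ne'
  have hz : EqOn (fun y => ∑ j, fderiv ℝ (W (m + 1) f j) y (Pi.single j 1)) (fun _ => 0)
      (Icc (0 : Fin (n + 1) → ℝ) b) := fun y hy => W_div m hm f y (hN y hy)
  have key := integral_divergence_of_hasFDerivAt_off_countable' 0 b hb (W (m + 1) f)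
    (fun j y => fderiv ℝ (W (m + 1) f j) y) ∅ countable_empty
    (fun j y hy => (W_diff _ f j y (hN y hy)).continuousAt.continuousWithinAt)
    (fun y hy j => (W_diff _ f j y (hN y
      ⟨fun i => (hy.1 i (Set.mem_univ _)).1.le, fun i => (hy.1 i (Set.mem_univ _)).2.le⟩)).hasFDerivAt)
    ((integrableOn_congr_fun hz measurableSet_Icc).2 integrableOn_zero)
  rw [setIntegral_congr_fun measurableSet_Icc hz, integral_zero, Fin.sum_univ_succ] at key
  have h2 : ∀ i : Fin n, ∀ x : Fin n → ℝ, W (m + 1) f i.succ (Fin.insertNth i.succ (b i.succ) x) =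
      W (m + 1) f i.succ (Fin.insertNth i.succ ((0 : Fin (n + 1) → ℝ) i.succ) x) := by
    intro i x
    have : (Fin.insertNth i.succ (b i.succ) x : Fin (n + 1) → ℝ) =
        (Fin.insertNth i.succ ((0 : Fin (n + 1) → ℝ) i.succ) x : Fin (n + 1) → ℝ) +
          Pi.single i.succ (2 * π) := by
      ext k
      refine Fin.succAboveCases i.succ ?_ (fun k => ?_) k
      · simp [b]
      · simp [Fin.succAbove_ne]
    rw [this]
    simp only [W, (G f i.succ).2.2 i, (N f).2.2 i]
  simp only [h2, sub_self, sum_const_zero, add_zero] at key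
  have e1 : (0 : Fin (n + 1) → ℝ) ∘ Fin.succAbove 0 = 0 := rfl
  have e2 : b ∘ Fin.succAbove 0 = fun _ => 2 * π := by
    ext i
    simp [b]
  rw [e1, e2] at key
  simp only [Fin.insertNth_zero', b, Fin.cons_zero, Pi.zero_apply] at key
  simp only [deg]
  linarith

theorem D_slice (f g : Per n) (s : ℝ) (h : ∀ y, y 0 = s → f.1 y = g.1 y) (j : Fin n)
    (y : Fin (n + 1) → ℝ) (hy : y 0 = s) : (D j.succ f).1 y = (D j.succ g).1 y := by
  rw [D_apply, D_apply, ← (Per.diff f y).lineDeriv_eq_fderiv, ← (Per.diff g y).lineDeriv_eq_fderiv,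
    lineDeriv, lineDeriv]
  congr 1
  ext t
  apply h
  simp [hy, (Fin.succ_ne_zero j).symm]

theorem G_apply (f : Fin (n + 1) → Per n) (y : Fin (n + 1) → ℝ) :
    (G f 0).1 y = (Matrix.of fun i => Fin.cons ((f i).1 y) fun j => (D j.succ (f i)).1 y).det := by
  change ev y (G f 0) = _
  rw [G, RingHom.map_det]
  congr 1
  ext i k
  refine Fin.cases ?_ (fun k => ?_) k
  · simp [ev_apply]
  · simp [ev_apply, jac]

theorem deg_slice (m : ℕ) (f g : Fin (n + 1) → Per n) (s : ℝ)
    (h : ∀ i y, y 0 = s → (f i).1 y = (g i).1 y) : deg m f s = deg m g s := by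
  simp only [deg]
  congr 1
  ext x
  have hy : (Fin.cons s x : Fin (n + 1) → ℝ) 0 = s := rfl
  simp only [W]
  congr 1
  · rw [G_apply, G_apply]
    congr 1
    ext i k
    refine Fin.cases ?_ (fun k => ?_) k
    · simp [h i _ hy]
    · simp [D_slice _ _ s (h i) k _ hy]
  · change ev _ (N f) ^ m = ev _ (N g) ^ m
    simp only [N, map_sum, map_mul, ev_apply, h _ _ hy]

theorem deg_eq_zero (m : ℕ) (f : Fin (n + 1) → Per n) (s : ℝ) (j : Fin n)
    (h : ∀ i y (t : ℝ), (f i).1 (y + t • (Pi.single j.succ 1 : Fin (n + 1) → ℝ)) = (f i).1 y) : deg m f s = 0 := by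
  have : ∀ y, W m f 0 y = 0 := by
    intro y
    rw [W, G_apply, det_eq_zero_of_column_eq_zero j.succ, zero_div]
    intro i
    simp only [of_apply, Fin.cons_succ]
    rw [D_apply, ← (Per.diff (f i) y).lineDeriv_eq_fderiv, lineDeriv]
    simp [h]
  simp [deg, this]

theorem deg_pos (m : ℕ) (f : Fin (n + 1) → Per n) (s : ℝ)
    (hf : ∀ y : Fin (n + 1) → ℝ, y 0 = s → ∃ i, (f i).1 y ≠ 0)
    (h0 : ∀ y : Fin (n + 1) → ℝ, y 0 = s → 0 ≤ (G f 0).1 y)
    (x₀ : Fin n → ℝ) (hx : ∀ i, 0 < x₀ i ∧ x₀ i < 2 * π) (h1 : (G f 0).1 (Fin.cons s x₀) ≠ 0) :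
    0 < deg m f s := by
  have hc : Continuous fun x : Fin n → ℝ => (Fin.cons s x : Fin (n + 1) → ℝ) := by
    refine continuous_pi fun i => ?_
    refine Fin.cases ?_ (fun i => ?_) i
    · simpa using continuous_const
    · simpa using continuous_apply i
  have hN : ∀ x : Fin n → ℝ, 0 < (N f).1 (Fin.cons s x) := fun x => N_ne_zero f _ (hf _ rfl)
  have hW : Continuous fun x : Fin n → ℝ => W m f 0 (Fin.cons s x) :=
    ((Per.cont _).comp hc).div (((Per.cont _).comp hc).pow m) fun x => pow_ne_zero _ (hN x).ne'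
  rw [deg, setIntegral_pos_iff_support_of_nonneg_ae (f := fun x => W m f 0 (Fin.cons s x))
    (Filter.Eventually.of_forall fun x => div_nonneg (h0 _ rfl) (pow_pos (hN x) m).le)
    (hW.continuousOn.integrableOn_compact isCompact_Icc)]
  have ho : IsOpen ((Function.support fun x : Fin n → ℝ => W m f 0 (Fin.cons s x)) ∩
      Set.pi Set.univ fun _ => Ioo 0 (2 * π)) :=
    hW.isOpen_support.inter (isOpen_set_pi finite_univ fun _ _ => isOpen_Ioo)
  refine lt_of_lt_of_le (ho.measure_pos volume ⟨x₀, ?_, fun i _ => hx i⟩) (measure_mono ?_)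
  · exact div_ne_zero h1 (pow_pos (hN x₀) m).ne'
  · exact fun x hx => ⟨hx.1, fun i => (hx.2 i (Set.mem_univ _)).1.le,
      fun i => (hx.2 i (Set.mem_univ _)).2.le⟩

/-- The cosine of an integer multiple of an angle. -/
noncomputable def cs (j : Fin n) (k : ℕ) : Per n :=
  ⟨fun y => Real.cos (k * y j.succ), by fun_prop, fun i y => by
    by_cases h : j = i
    · subst h
      simp [mul_add, Real.cos_add_nat_mul_two_pi]
    · simp [h]⟩

/-- The sine of an integer multiple of an angle. -/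
noncomputable def sn (j : Fin n) (k : ℕ) : Per n :=
  ⟨fun y => Real.sin (k * y j.succ), by fun_prop, fun i y => by
    by_cases h : j = i
    · subst h
      simp [mul_add, Real.sin_add_nat_mul_two_pi]
    · simp [h]⟩

theorem D_cs (i j : Fin n) (k : ℕ) (y : Fin (n + 1) → ℝ) :
    (D i.succ (cs j k)).1 y = if j = i then -(k * Real.sin (k * y j.succ)) else 0 := by
  have h := ((hasFDerivAt_apply (𝕜 := ℝ) j.succ y).const_mul (k : ℝ)).cos
  rw [D_apply]
  erw [h.fderiv]
  by_cases e : j = i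
  · subst e
    simp [mul_comm]
  · simp [e]

theorem D_sn (i j : Fin n) (k : ℕ) (y : Fin (n + 1) → ℝ) :
    (D i.succ (sn j k)).1 y = if j = i then k * Real.cos (k * y j.succ) else 0 := by
  have h := ((hasFDerivAt_apply (𝕜 := ℝ) j.succ y).const_mul (k : ℝ)).sin
  rw [D_apply]
  erw [h.fderiv]
  by_cases e : j = i
  · subst e
    simp [mul_comm]
  · simp [e]

end Pool.Agent.Lib.TorusDegree
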