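import Mathlib.LinearAlgebra.Matrix.Adjugate
import Mathlib.Tactic.Ring
import Mathlib.Tactic.LinearCombination

/-!
The Piola identity in a commutative ring with commuting derivations.
-/

namespace Pool.Agent.Lib.TorusDegree

open Matrix Finset

variable {A : Type*} [CommRing A]

theorem der_one (d : A →+ A) (hd : ∀ a b, d (a * b) = d a * b + a * d b) : d 1 = 0 := by
  have := hd 1 1
  simp only [mul_one, one_mul] at this
  linear_combination (-1 : A) * this

theorem der_prod {ι : Type*} [DecidableEq ι] (d : A →+ A)
    (hd : ∀ a b, d (a * b) = d a * b + a * d b) (s : Finset ι) (a : ι → A) :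
    d (∏ i ∈ s, a i) = ∑ k ∈ s, ∏ i ∈ s, Function.update a k (d (a k)) i := by
  induction s using Finset.induction_on with
  | empty => simp [der_one d hd]
  | insert j s hj ih =>
    rw [prod_insert hj, hd, ih, sum_insert hj, prod_insert hj, Function.update_self, mul_sum]
    congr 1
    · congr 1
      refine prod_congr rfl fun i hi => ?_
      rw [Function.update_of_ne]
      rintro rfl
      exact hj hi
    · refine sum_congr rfl fun k hk => ?_
      rw [prod_insert hj, Function.update_of_ne]
      rintro rfl
      exact hj hk

theorem der_det {ι : Type*} [DecidableEq ι] [Fintype ι] (d : A →+ A)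
    (hd : ∀ a b, d (a * b) = d a * b + a * d b) (M : Matrix ι ι A) :
    d M.det = ∑ k, (M.updateCol k fun i => d (M i k)).det := by
  simp only [det_apply, map_sum]
  rw [sum_comm]
  refine sum_congr rfl fun σ _ => ?_
  rw [Units.smul_def, map_zsmul, der_prod d hd, smul_sum]
  refine sum_congr rfl fun k _ => ?_
  rw [Units.smul_def]
  congr 1
  refine prod_congr rfl fun i _ => ?_
  by_cases h : i = k
  · subst h
    simp
  · simp [Function.update_of_ne h, updateCol_ne h]

/-- The Jacobian matrix. -/
def jac {ι : Type*} (D : ι → A →+ A) (f : ι → A) : Matrix ι ι A := Matrix.of fun i k => D k (f i)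

theorem piola {ι : Type*} [DecidableEq ι] [Fintype ι] (D : ι → A →+ A)
    (hD : ∀ j a b, D j (a * b) = D j a * b + a * D j b)
    (hc : ∀ i j a, D i (D j a) = D j (D i a)) (f : ι → A) :
    ∑ j, D j (((jac D f).updateCol j f).det) = (Fintype.card ι : A) * (jac D f).det := by
  classical
  set J := jac D f with hJ
  let T : ι → ι → A := fun j k =>
    if j = k then 0 else ((J.updateCol j f).updateCol k fun i => D j (D k (f i))).det
  have h1 : ∀ j, D j ((J.updateCol j f).det) = J.det + ∑ k, T j k := by
    intro j
    rw [der_det (D j) (hD j), ← add_sum_erase _ _ (mem_univ j), ← add_sum_erase _ _ (mem_univ j)]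
    have e1 : T j j = 0 := by simp [T]
    rw [e1, zero_add]
    congr 1
    · congr 1
      ext i k
      by_cases h : k = j
      · subst h
        simp [hJ, jac]
      · simp [updateCol_ne h]
    · refine sum_congr rfl fun k hk => ?_
      have h : k ≠ j := (mem_erase.1 hk).1
      simp only [T, if_neg h.symm]
      congr 2
      ext i
      simp [updateCol_ne h, hJ, jac]
  have h2 : ∀ j k, T j k + T k j = 0 := by
    intro j k
    by_cases h : j = k
    · subst h
      simp [T]
    · have h' : k ≠ j := fun e => h e.symm
      simp only [T, if_neg h, if_neg h']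
      have : ((J.updateCol k f).updateCol j fun i => D k (D j (f i))) =
          ((J.updateCol j f).updateCol k fun i => D j (D k (f i))).submatrix id
            (Equiv.swap j k) := by
        ext i l
        by_cases hl : l = j
        · subst hl
          simp [hc l k]
        · by_cases hl' : l = k
          · subst hl'
            simp [updateCol_ne hl, updateCol_ne h]
          · simp [updateCol_ne hl, updateCol_ne hl', Equiv.swap_apply_of_ne_of_ne hl hl']
      rw [this, det_permute', Equiv.Perm.sign_swap h]
      simp
  have h3 : ∑ j, ∑ k, T j k = 0 := by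
    rw [← sum_product']
    refine sum_involution (fun p _ => p.swap) (fun p _ => h2 _ _) ?_ (fun p _ => by simp)
      (fun p _ => by simp)
    intro p _ hp e
    apply hp
    have : p.1 = p.2 := by
      have := congrArg Prod.snd e
      simpa using this
    simp [T, this]
  simp only [h1, sum_add_distrib, h3, add_zero]
  simp

theorem cramer_id {ι : Type*} [DecidableEq ι] [Fintype ι] (M : Matrix ι ι A) (f : ι → A) (i : ι) :
    ∑ j, M i j * (M.updateCol j f).det = M.det * f i := by
  have := congrFun (mulVec_cramer M f) i
  simpa [mulVec, dotProduct, cramer_apply] using this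

end Pool.Agent.Lib.TorusDegree
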